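import Pool.Agent.H.MP_0b8c1e_lc.Defs
import Pool.Agent.Lib.lead.CXGraphRed

namespace Pool.Agent.H.MP_0b8c1e_lc

open Finset Classical Pool.Agent.Lib.CX

section
variable {V : Type} [Fintype V] (G : SimpleGraph V) (c : V → ℕ)

def Good (t : ℕ) : Prop := (univ.filter fun v => c v = t).card = 3 ∧ ∀ u v, c u = t → c v = t → u ≠ v → G.Adj u v

theorem two_e (t : ℕ) : 2 * (G.edgeFinset.filter fun e => ∀ v ∈ e, c v = t).card =
    (univ.filter fun x : V × V => c x.1 = t ∧ c x.2 = t ∧ G.Adj x.1 x.2).card := by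
  let H : SimpleGraph V := ⟨fun u v => c u = t ∧ c v = t ∧ G.Adj u v, ⟨fun _ _ h => ⟨h.2.1, h.1, h.2.2.symm⟩⟩,
    ⟨fun _ h => h.2.2.ne rfl⟩⟩
  have := H.two_mul_card_edgeFinset
  rw [show H.edgeFinset = G.edgeFinset.filter fun e => ∀ v ∈ e, c v = t by
    ext e; induction e using Sym2.ind; simp [H]; tauto] at this
  exact this

theorem part_le (hG : ∀ x y z w, G.Adj x y → G.Adj x z → G.Adj y z → G.Adj x w → G.Adj y w → z = w) (t : ℕ) :
    ((G.edgeFinset.filter fun e => ∀ v ∈ e, c v = t).card : ℝ) / (univ.filter fun v => c v = t).card ≤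
      (univ.filter fun v => c v = t).card * if Good G c t then 1 / 3 else 5 / 16 := by
  have h1 := two_e G c t
  set P := univ.filter fun v => c v = t with hP
  set D := univ.filter fun x : V × V => c x.1 = t ∧ c x.2 = t ∧ G.Adj x.1 x.2 with hD
  generalize (G.edgeFinset.filter fun e => ∀ v ∈ e, c v = t).card = e at h1
  have h2 : D ⊆ P.offDiag := fun x hx => by
    simp only [hD, hP, mem_filter, mem_offDiag, mem_univ, true_and] at hx ⊢; exact ⟨hx.1, hx.2.1, hx.2.2.ne⟩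
  have h3 := card_le_card h2
  rw [offDiag_card] at h3
  have h4 : 2 * D.card ≤ P.card * (P.card + 1) := by
    let d := fun u => (P.filter (G.Adj u)).card
    have e1 : ∀ F : V → V → ℕ, ∑ x ∈ D, F x.1 x.2 = ∑ u ∈ P, ∑ v ∈ P.filter (G.Adj u), F u v := fun F =>
      sum_finset_product' D P _ (by simp [hD, hP])
    have e2 : ∑ x ∈ D, d x.2 = ∑ x ∈ D, d x.1 := sum_nbij' Prod.swap Prod.swap (by simp [hD, G.adj_comm]; tauto)
      (by simp [hD, G.adj_comm]; tauto) (by simp) (by simp) (by simp)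
    have e3 : ∑ x ∈ D, (d x.1 + d x.2) ≤ D.card * (P.card + 1) := sum_le_card_nsmul _ _ _ fun x hx => by
      rw [← card_union_add_card_inter]
      refine add_le_add (card_le_card (union_subset (filter_subset _ _) (filter_subset _ _))) (card_le_one.2 ?_)
      simp only [mem_inter, mem_filter]
      exact fun a ha b hb => hG _ _ _ _ (mem_filter.1 hx).2.2.2 ha.1.2 ha.2.2 hb.1.2 hb.2.2
    have e4 : D.card = ∑ u ∈ P, d u := by rw [card_eq_sum_ones, e1 fun _ _ => 1]; simp [d]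
    have e5 := sq_sum_le_card_mul_sum_sq (s := P) (f := d)
    rw [sum_add_distrib, e2, e1 fun u _ => d u] at e3
    simp only [sum_const, smul_eq_mul, ← e4] at e3 e5
    rcases Nat.eq_zero_or_pos D.card with h | h
    · omega
    refine Nat.le_of_mul_le_mul_left ?_ h
    simp only [sq] at e5
    change ∑ u ∈ P, d u * d u + ∑ u ∈ P, d u * d u ≤ _ at e3
    nlinarith
  have h5 : P.card = 3 → ¬ Good G c t → D.card ≤ 5 := fun h n => by
    by_contra! q
    have := eq_of_subset_of_card_le h2 (by rw [offDiag_card, h]; exact q)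
    refine n ⟨h, fun u v hu hv e => ?_⟩
    have : (u, v) ∈ D := this ▸ mem_offDiag.2 (by simp [hP, hu, hv, e])
    exact (mem_filter.1 this).2.2.2
  have h6 : Good G c t → P.card = 3 := fun h => h.1
  generalize P.card = s at *
  generalize D.card = k at *
  subst h1
  refine div_le_of_le_mul₀ (Nat.cast_nonneg _) (by split_ifs <;> positivity) ?_
  split_ifs with h
  · have : e ≤ 3 := by rw [h6 h] at h4; omega
    rw [h6 h]; norm_num; exact_mod_cast this
  · have : 16 * e ≤ 5 * (s * s) := by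
      rcases Nat.lt_or_ge s 4 with q | q
      · interval_cases s <;> simp_all <;> omega
      · nlinarith
    have : (16 * e : ℝ) ≤ 5 * (s * s) := by exact_mod_cast this
    linarith

theorem sum_parts (F : ℕ → ℝ) : ∑ t ∈ univ.image c, (univ.filter fun v => c v = t).card * F t = ∑ v, F (c v) := by
  rw [← sum_fiberwise_of_maps_to (s := univ) (fun v hv => mem_image_of_mem c hv) fun v => F (c v)]
  exact sum_congr rfl fun t _ => by rw [sum_congr rfl fun v hv => by rw [(mem_filter.1 hv).2]]; simp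

theorem dens_le (hG : ∀ x y z w, G.Adj x y → G.Adj x z → G.Adj y z → G.Adj x w → G.Adj y w → z = w) :
    dens G c ≤ Fintype.card V / 3 - (univ.filter fun v => ¬ Good G c (c v)).card / 48 := by
  refine (sum_le_sum fun t _ => part_le G c hG t).trans ((sum_parts c _).trans_le ?_)
  rw [card_filter, ← card_univ, card_eq_sum_ones]
  push_cast
  rw [sum_div, sum_div, ← sum_sub_distrib]
  exact sum_le_sum fun v _ => by by_cases h : Good G c (c v) <;> simp [h]; norm_num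

theorem dens_eq (h : ∀ v, Good G c (c v)) : dens G c = Fintype.card V / 3 := by
  rw [show (Fintype.card V / 3 : ℝ) = ∑ v : V, 1 / 3 by simp [div_eq_mul_inv], ← sum_parts c fun _ => 1 / 3]
  refine sum_congr rfl fun t ht => ?_
  obtain ⟨v, -, rfl⟩ := mem_image.1 ht
  have := two_e G c (c v)
  rw [show univ.filter (fun x : V × V => c x.1 = c v ∧ c x.2 = c v ∧ G.Adj x.1 x.2) =
    (univ.filter fun u => c u = c v).offDiag by
      ext x; simp only [mem_filter, mem_offDiag, mem_univ, true_and]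
      exact ⟨fun h => ⟨h.1, h.2.1, h.2.2.ne⟩, fun q => ⟨q.1, q.2.1, (h v).2 _ _ q.1 q.2.1 q.2.2⟩⟩, offDiag_card, (h v).1] at this
  rw [(h v).1, show (G.edgeFinset.filter fun e => ∀ u ∈ e, c u = c v).card = 3 by omega]
  norm_num
end

variable (S : List (List ℕ)) (E L : ℕ)

def el (g : ℕ) : ℕ := (S.getD (g / L) []).getD (g % L) 0
def nx (g : ℕ) : ℕ := g / L * L + (g % L + 1) % L
def ed (g : ℕ) : List (ℕ × ℕ) :=
  [(E + 3 * g, E + 3 * g + 1), (el S L g, E + 3 * g), (el S L g, E + 3 * g + 1), (E + 3 * g + 1, E + 3 * nx L g),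
    (E + 3 * g + 2, E + 3 * g + 1), (E + 3 * g + 2, E + 3 * nx L g), (E + 3 * g + 2, E + 3 * (g / 3 * 3 + (g + 1) % 3) + 2)]
def tg : Gr := (List.replicate (E + 3 * (S.length * L)) (), (List.range (S.length * L)).flatMap (ed S E L))
def Ad (x y : ℕ) : Prop := ∃ g < S.length * L, (x, y) ∈ ed S E L g ∨ (y, x) ∈ ed S E L g
def TT (g : ℕ) : Finset ℕ := {el S L g, E + 3 * g, E + 3 * g + 1}
def FF (g : ℕ) : Finset ℕ := {E + 3 * g + 2, E + 3 * g + 1, E + 3 * nx L g}
def OO (k : ℕ) : Finset ℕ := {E + 9 * k + 2, E + 9 * k + 5, E + 9 * k + 8}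

theorem pt_tg {α : Type} [Enc α] {S : α → List (List ℕ)} {E : α → ℕ} (L : ℕ) (h1 : PT S) (h2 : PT E) (h3 : PB E) :
    PT fun a => tg (S a) (E a) L := by unfold tg ed el nx; fun_prop

theorem tg_n : (tg S E L).n = E + 3 * (S.length * L) := by simp [tg, Gr.n]

structure OK : Prop where
  pos : 1 < L
  dvd : 3 ∣ L
  set : ∀ s ∈ S, s.length = L ∧ s.Nodup ∧ ∀ u ∈ s, u < E

variable {S E L}

theorem nx_div (h : 0 < L) (g : ℕ) : nx L g / L = g / L := by
  rw [nx, mul_comm, Nat.mul_add_div h, Nat.div_eq_of_lt (Nat.mod_lt _ h)]; rfl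
theorem nx_mod (h : 0 < L) (g : ℕ) : nx L g % L = (g % L + 1) % L := by rw [nx, Nat.mul_add_mod_of_lt (Nat.mod_lt _ h)]
theorem nx_inj (h : 0 < L) {g k : ℕ} (e : nx L g = nx L k) : g = k := by
  have h1 : g / L = k / L := by rw [← nx_div h, e, nx_div h]
  have h2 : (g % L + 1) % L = (k % L + 1) % L := by rw [← nx_mod h, e, nx_mod h]
  have h3 := Nat.ModEq.add_right_cancel' 1 h2
  rw [Nat.ModEq, Nat.mod_mod, Nat.mod_mod] at h3
  rw [← Nat.div_add_mod g L, ← Nat.div_add_mod k L, h1, h3]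
theorem lt_iff (h : 0 < L) {g m : ℕ} : g < m * L ↔ g / L < m := (Nat.div_lt_iff_lt_mul h).symm

theorem OK.el (h : OK S E L) {g : ℕ} (hg : g < S.length * L) : el S L g ∈ S.getD (g / L) [] ∧ el S L g < E ∧
    nx L g < S.length * L ∧ ∀ k, k / L = g / L → el S L k = el S L g → k = g := by
  have h0 : 0 < L := by have := h.pos; omega
  have h1 := (lt_iff h0).1 hg
  obtain ⟨a, b, c⟩ := h.set _ (List.getElem_mem h1)
  have h2 : ∀ k, k % L < S[g / L].length := fun k => (Nat.mod_lt _ h0).trans_eq a.symm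
  have h3 : MP_0b8c1e_lc.el S L g ∈ S[g / L] := by
    rw [MP_0b8c1e_lc.el, List.getD_eq_getElem _ _ h1, List.getD_eq_getElem _ _ (h2 g)]; exact List.getElem_mem _
  refine ⟨by rwa [List.getD_eq_getElem _ _ h1], c _ h3, (lt_iff h0).2 (by rwa [nx_div h0]), fun k e q => ?_⟩
  rw [MP_0b8c1e_lc.el, MP_0b8c1e_lc.el, e, List.getD_eq_getElem _ _ h1, List.getD_eq_getElem _ _ (h2 g),
    List.getD_eq_getElem _ _ (h2 k), b.getElem_inj_iff] at q
  rw [← Nat.div_add_mod g L, ← Nat.div_add_mod k L, e, q]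

theorem OK.ne (h : OK S E L) {g : ℕ} (hg : g < S.length * L) : nx L g ≠ g ∧ MP_0b8c1e_lc.el S L (nx L g) ≠ MP_0b8c1e_lc.el S L g := by
  have h0 : 0 < L := by have := h.pos; omega
  have : nx L g ≠ g := fun e => by
    have h1 := nx_mod h0 g
    have h2 := Nat.mod_lt g h0
    have := h.pos
    rw [e] at h1
    rcases Nat.lt_or_ge (g % L + 1) L with q | q
    · rw [Nat.mod_eq_of_lt q] at h1; omega
    · rw [show g % L + 1 = L by omega, Nat.mod_self] at h1; omega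
  exact ⟨this, fun e => this ((h.el hg).2.2.2 _ (nx_div h0 g) e)⟩

theorem OK.adj (h : OK S E L) (u v : Fin (tg S E L).n) : (tg S E L).G.Adj u v ↔ Ad S E L u v := by
  rw [Gr.adj_iff]
  simp only [tg, List.mem_flatMap, List.mem_range, Ad]
  refine ⟨fun q => q.2.elim (fun ⟨g, a, b⟩ => ⟨g, a, .inl b⟩) fun ⟨g, a, b⟩ => ⟨g, a, .inr b⟩, fun ⟨g, a, b⟩ =>
    ⟨?_, b.imp (fun b => ⟨g, a, b⟩) fun b => ⟨g, a, b⟩⟩⟩
  have := (h.el a).2.1
  simp only [ed, List.mem_cons, Prod.mk.injEq, List.not_mem_nil, or_false] at b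
  omega

theorem Ad.symm {x y} : Ad S E L x y → Ad S E L y x := fun ⟨g, a, b⟩ => ⟨g, a, b.symm⟩

theorem OK.nb (h : OK S E L) {x y : ℕ} (a : Ad S E L x y) : ∃ g < S.length * L, MP_0b8c1e_lc.el S L g < E ∧
    ((x = MP_0b8c1e_lc.el S L g ∧ (y = E + 3 * g ∨ y = E + 3 * g + 1)) ∨
    (x = E + 3 * g ∧ (y = E + 3 * g + 1 ∨ y = MP_0b8c1e_lc.el S L g)) ∨
    (x = E + 3 * nx L g ∧ (y = E + 3 * g + 1 ∨ y = E + 3 * g + 2)) ∨
    (x = E + 3 * g + 1 ∧ (y = E + 3 * g ∨ y = MP_0b8c1e_lc.el S L g ∨ y = E + 3 * nx L g ∨ y = E + 3 * g + 2)) ∨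
    (x = E + 3 * g + 2 ∧ (y = E + 3 * g + 1 ∨ y = E + 3 * nx L g ∨ (y ≠ x ∧ y ∈ OO E (g / 3))))) := by
  obtain ⟨g, hg, a⟩ := a
  obtain ⟨m, hm⟩ := h.dvd.mul_left S.length
  simp only [ed, List.mem_cons, Prod.mk.injEq, List.not_mem_nil, or_false] at a
  simp only [OO, mem_insert, mem_singleton]
  rcases a with a | a | a | a | a | a | a | a
  rotate_right
  · have : g / 3 * 3 + (g + 1) % 3 < S.length * L := by omega
    exact ⟨_, this, (h.el this).2.1, .inr (.inr (.inr (.inr (by omega))))⟩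
  all_goals exact ⟨g, hg, (h.el hg).2.1, by omega⟩

theorem OK.key (h : OK S E L) {x y z : ℕ} (a : Ad S E L x y) (b : Ad S E L x z) (c : Ad S E L y z) (hx : E ≤ x)
    (q : (x - E) % 3 = 1) :
    ∃ g < S.length * L, {x, y, z} = TT S E L g ∨ {x, y, z} = FF E L g ∨ {x, y, z} = OO E (g / 3) := by
  obtain ⟨g, hg, a1, a⟩ := h.nb a
  obtain ⟨k, hk, a2, b⟩ := h.nb b
  obtain ⟨a3, a⟩ : x = E + 3 * g + 1 ∧ _ := (((a.resolve_left (by omega)).resolve_left (by omega)).resolve_left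
    (by omega)).resolve_right (by omega)
  obtain ⟨a4, b⟩ : x = E + 3 * k + 1 ∧ _ := (((b.resolve_left (by omega)).resolve_left (by omega)).resolve_left
    (by omega)).resolve_right (by omega)
  obtain rfl : g = k := by omega
  obtain ⟨m, hm, a5, c⟩ := h.nb c
  have a6 := h.ne hg
  have a7 : m = nx L g → MP_0b8c1e_lc.el S L m ≠ MP_0b8c1e_lc.el S L g := by rintro rfl; exact a6.2
  have a8 : m = g → nx L m = nx L g := by rintro rfl; rfl
  simp only [OO, mem_insert, mem_singleton] at c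
  have : (y = E + 3 * g ∧ z = MP_0b8c1e_lc.el S L g) ∨ (z = E + 3 * g ∧ y = MP_0b8c1e_lc.el S L g) ∨
      (y = E + 3 * nx L g ∧ z = E + 3 * g + 2) ∨ (z = E + 3 * nx L g ∧ y = E + 3 * g + 2) := by
    have := a6.1
    clear hm hk hg hx q a3 a4 a6
    rcases a with a | a | a | a <;> rcases b with b | b | b | b <;> rcases c with c | c | c | c | c <;> omega
  subst a3
  refine ⟨g, hg, ?_⟩
  rcases this with ⟨rfl, rfl⟩ | ⟨rfl, rfl⟩ | ⟨rfl, rfl⟩ | ⟨rfl, rfl⟩
  · exact .inl (by ext; simp only [TT, mem_insert, mem_singleton]; omega)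
  · exact .inl (by ext; simp only [TT, mem_insert, mem_singleton]; omega)
  · exact .inr (.inl (by ext; simp only [FF, mem_insert, mem_singleton]; omega))
  · exact .inr (.inl (by ext; simp only [FF, mem_insert, mem_singleton]; omega))

theorem OK.ty (h : OK S E L) {x y} (a : Ad S E L x y) : ¬ (E ≤ x ∧ (x - E) % 3 = 1) → ¬ (E ≤ y ∧ (y - E) % 3 = 1) →
    (x < E ∧ E ≤ y ∧ (y - E) % 3 = 0) ∨ (y < E ∧ E ≤ x ∧ (x - E) % 3 = 0) ∨
    (E ≤ x ∧ E ≤ y ∧ (((x - E) % 3 = 0 ∧ (y - E) % 3 = 2) ∨ ((x - E) % 3 = 2 ∧ (y - E) % 3 = 0) ∨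
      ((x - E) % 3 = 2 ∧ (y - E) % 3 = 2 ∧ (x - E) / 9 = (y - E) / 9 ∧ x ≠ y))) := by
  obtain ⟨g, hg, a1, a⟩ := h.nb a
  simp only [OO, mem_insert, mem_singleton] at a
  rcases a with a | a | a | a | a <;> omega

theorem OK.oa (h : OK S E L) {x y z} (a : Ad S E L x y) (b : Ad S E L x z) : E ≤ x → (x - E) % 3 = 0 → E ≤ y →
    (y - E) % 3 = 2 → E ≤ z → (z - E) % 3 = 2 → y = z := fun _ _ _ _ _ _ => by
  obtain ⟨g, hg, a1, a⟩ := h.nb a
  obtain ⟨k, hk, a2, b⟩ := h.nb b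
  have : nx L k = nx L g → k = g := nx_inj (by have := h.pos; omega)
  rcases a with a | a | a | a | a <;> rcases b with b | b | b | b | b <;> omega

theorem OK.tri (h : OK S E L) {x y z : ℕ} (a : Ad S E L x y) (b : Ad S E L x z) (c : Ad S E L y z) :
    ∃ g < S.length * L, {x, y, z} = TT S E L g ∨ {x, y, z} = FF E L g ∨ {x, y, z} = OO E (g / 3) := by
  have pm : ∀ x y z : ℕ, ({x, y, z} : Finset ℕ) = {z, x, y} := fun x y z => by ext; simp; tauto
  by_cases h1 : E ≤ x ∧ (x - E) % 3 = 1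
  · exact h.key a b c h1.1 h1.2
  by_cases h2 : E ≤ y ∧ (y - E) % 3 = 1
  · rw [pm x y z, pm z x y]; exact h.key c a.symm b.symm h2.1 h2.2
  by_cases h3 : E ≤ z ∧ (z - E) % 3 = 1
  · rw [pm x y z]; exact h.key b.symm c.symm a h3.1 h3.2
  have no : ∀ {x y z}, Ad S E L x y → Ad S E L x z → Ad S E L y z → ¬ (E ≤ x ∧ (x - E) % 3 = 1) →
      ¬ (E ≤ y ∧ (y - E) % 3 = 1) → ¬ (E ≤ z ∧ (z - E) % 3 = 1) → ¬ (E ≤ x ∧ (x - E) % 3 = 0) := by
    rintro x y z a b c h1 h2 h3 ⟨p, q⟩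
    have t1 := h.ty a h1 h2
    have t2 := h.ty b h1 h3
    have t3 := h.ty c h2 h3
    clear h1 h2 h3
    have : E ≤ y ∧ (y - E) % 3 = 2 ∧ E ≤ z ∧ (z - E) % 3 = 2 ∧ y ≠ z := by
      rcases t1 with t1 | t1 | t1 <;> rcases t2 with t2 | t2 | t2 <;> omega
    exact this.2.2.2.2 (h.oa a b p q this.1 this.2.1 this.2.2.1 this.2.2.2.1)
  have n1 := no a b c h1 h2 h3
  have n2 := no a.symm c b h2 h1 h3
  have n3 := no b.symm c.symm a h3 h1 h2
  have t1 : (x - E) % 3 = 2 ∧ (y - E) % 3 = 2 ∧ (x - E) / 9 = (y - E) / 9 ∧ x ≠ y ∧ E ≤ x ∧ E ≤ y := by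
    have := h.ty a h1 h2; clear h1 h2 h3 n3; omega
  have t2 : (z - E) % 3 = 2 ∧ (x - E) / 9 = (z - E) / 9 ∧ x ≠ z ∧ E ≤ z := by
    have := h.ty b h1 h3; clear h1 h2 h3 n2; omega
  have t3 : y ≠ z := by have := h.ty c h2 h3; clear h1 h2 h3 n1; omega
  clear h1 h2 h3 n1 n2 n3
  obtain ⟨g, hg, a1, a⟩ := h.nb a
  refine ⟨g, hg, .inr (.inr ?_)⟩
  have : x = E + 3 * g + 2 := by omega
  clear a
  ext; simp only [OO, mem_insert, mem_singleton]; omega

theorem OK.lin (h : OK S E L) {s t : Finset ℕ} {g k x y : ℕ} (hg : g < S.length * L) (hk : k < S.length * L)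
    (a : s = TT S E L g ∨ s = FF E L g ∨ s = OO E (g / 3)) (b : t = TT S E L k ∨ t = FF E L k ∨ t = OO E (k / 3))
    (n : x ≠ y) (h1 : x ∈ s) (h2 : y ∈ s) (h3 : x ∈ t) (h4 : y ∈ t) : s = t := by
  have h0 : 0 < L := by have := h.pos; omega
  have a1 := (h.el hg).2.1
  have a2 := (h.el hk).2.1
  have a3 := (h.ne hg).1
  have a4 := (h.ne hk).1
  rcases a with rfl | rfl | rfl <;> rcases b with rfl | rfl | rfl <;>
    simp only [TT, FF, OO, mem_insert, mem_singleton] at h1 h2 h3 h4 <;>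
    first | (exfalso; omega) | rw [show g = k by omega] | rw [show g / 3 = k / 3 by omega]

theorem OK.dia (h : OK S E L) (x y z w : Fin (tg S E L).n) (a : (tg S E L).G.Adj x y) (b : (tg S E L).G.Adj x z)
    (c : (tg S E L).G.Adj y z) (d : (tg S E L).G.Adj x w) (e : (tg S E L).G.Adj y w) : z = w := by
  obtain ⟨g, hg, p⟩ := h.tri ((h.adj _ _).1 a) ((h.adj _ _).1 b) ((h.adj _ _).1 c)
  obtain ⟨k, hk, q⟩ := h.tri ((h.adj _ _).1 a) ((h.adj _ _).1 d) ((h.adj _ _).1 e)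
  have := h.lin hg hk p q (Fin.val_ne_of_ne a.ne) (by simp) (by simp) (by simp) (by simp)
  have : z.1 ∈ ({x.1, y.1, w.1} : Finset ℕ) := this ▸ by simp
  simp only [mem_insert, mem_singleton, Fin.val_inj] at this
  exact (this.resolve_left b.ne').resolve_left c.ne'

end Pool.Agent.H.MP_0b8c1e_lc
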