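import Pool.Agent.H.MP_0b8c1e_lc.A
import Pool.Agent.Lib.helper20.PCPE

namespace Pool.Agent.H.MP_0b8c1e_lc

open Finset Classical Pool.Agent.Lib.CX Pool.Agent.Lib.helper20.PCP

variable {S : List (List ℕ)} {E L : ℕ}

theorem OK.ex (h : OK S E L) {j u : ℕ} (hj : j < S.length) (hu : u ∈ S.getD j []) :
    ∃ g < S.length * L, g / L = j ∧ MP_0b8c1e_lc.el S L g = u := by
  have h0 : 0 < L := by have := h.pos; omega
  rw [List.getD_eq_getElem _ _ hj] at hu
  obtain ⟨i, hi, rfl⟩ := List.getElem_of_mem hu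
  have h1 : i < L := hi.trans_eq (h.set _ (List.getElem_mem hj)).1
  have h2 : (j * L + i) / L = j := by rw [mul_comm, Nat.mul_add_div h0, Nat.div_eq_of_lt h1]; rfl
  exact ⟨j * L + i, (lt_iff h0).2 (h2.trans_lt hj), h2, by
    rw [MP_0b8c1e_lc.el, h2, Nat.mul_add_mod_of_lt h1, List.getD_eq_getElem _ _ hj, List.getD_eq_getElem _ _ hi]⟩

theorem OK.three (h : OK S E L) {g : ℕ} (hg : g < S.length * L) {t}
    (a : t = TT S E L g ∨ t = FF E L g ∨ t = OO E (g / 3)) :
    t.card = 3 ∧ ∀ x ∈ t, x < E + 3 * (S.length * L) ∧ ∀ y ∈ t, x ≠ y → Ad S E L x y := by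
  obtain ⟨-, a1, a2, -⟩ := h.el hg
  have a3 := (h.ne hg).1
  obtain ⟨m, hm⟩ := h.dvd.mul_left S.length
  rcases a with rfl | rfl | rfl
  · refine ⟨card_eq_three.2 ⟨_, _, _, by omega, by omega, by omega, rfl⟩, fun x hx => ⟨?_, fun y hy n => ⟨g, hg, ?_⟩⟩⟩ <;>
      simp only [TT, mem_insert, mem_singleton] at *
    · omega
    rcases hx with rfl | rfl | rfl <;> rcases hy with rfl | rfl | rfl <;> first | exact (n rfl).elim | simp [ed]
  · refine ⟨card_eq_three.2 ⟨_, _, _, by omega, by omega, by omega, rfl⟩, fun x hx => ⟨?_, fun y hy n => ⟨g, hg, ?_⟩⟩⟩ <;>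
      simp only [FF, mem_insert, mem_singleton] at *
    · omega
    rcases hx with rfl | rfl | rfl <;> rcases hy with rfl | rfl | rfl <;> first | exact (n rfl).elim | simp [ed]
  · refine ⟨card_eq_three.2 ⟨_, _, _, by omega, by omega, by omega, rfl⟩, fun x hx => ⟨?_, fun y hy n => ?_⟩⟩ <;>
    simp only [OO, mem_insert, mem_singleton] at *
    · omega
    have : ∀ k < S.length * L, Ad S E L (E + 3 * k + 2) (E + 3 * (k / 3 * 3 + (k + 1) % 3) + 2) :=
      fun k hk => ⟨k, hk, .inl (by simp [ed])⟩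
    have h1 := this ((x - E) / 3) (by omega)
    have h2 := (this ((y - E) / 3) (by omega)).symm
    by_cases q : E + 3 * ((x - E) / 3 / 3 * 3 + ((x - E) / 3 + 1) % 3) + 2 = y
    · rwa [q, show E + 3 * ((x - E) / 3) + 2 = x by omega] at h1
    · rwa [show E + 3 * ((y - E) / 3 / 3 * 3 + ((y - E) / 3 + 1) % 3) + 2 = x by omega,
        show E + 3 * ((y - E) / 3) + 2 = y by omega] at h2

theorem OK.yes (h : OK S E L) (on : ℕ → Prop) (cov : ∀ u < E, ∃ j < S.length, on j ∧ u ∈ S.getD j [])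
    (dis : ∀ j < S.length, ∀ k < S.length, on j → on k → ∀ u ∈ S.getD j [], u ∈ S.getD k [] → j = k) :
    ∃ c, ∀ v, Good (tg S E L).G c (c v) := by
  have h0 : 0 < L := by have := h.pos; omega
  let Ch : Finset ℕ → Prop := fun t => ∃ g < S.length * L, (on (g / L) ∧ (t = TT S E L g ∨ t = OO E (g / 3))) ∨
    (¬ on (g / L) ∧ t = FF E L g)
  have ex : ∀ x : Fin (tg S E L).n, ∃ t, Ch t ∧ x.1 ∈ t := fun x => by
    have hx := x.2.trans_eq (tg_n S E L)
    generalize x.1 = x at hx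
    by_cases h1 : x < E
    · obtain ⟨j, a, b, c⟩ := cov x h1
      obtain ⟨g, hg, rfl, rfl⟩ := h.ex a c
      exact ⟨_, ⟨g, hg, .inl ⟨b, .inl rfl⟩⟩, by simp [TT]⟩
    obtain ⟨g, hg, r, hr, rfl⟩ : ∃ g < S.length * L, ∃ r < 3, x = E + 3 * g + r := ⟨(x - E) / 3, by omega, (x - E) % 3, by omega, by omega⟩
    by_cases h2 : on (g / L)
    · by_cases h3 : r = 2
      · exact ⟨_, ⟨g, hg, .inl ⟨h2, .inr rfl⟩⟩, by simp only [OO, mem_insert, mem_singleton]; omega⟩
      · exact ⟨_, ⟨g, hg, .inl ⟨h2, .inl rfl⟩⟩, by simp only [TT, mem_insert, mem_singleton]; omega⟩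
    · by_cases h3 : r = 0
      · obtain ⟨k, hk, rfl⟩ := surj_on_of_inj_on_of_card_le (s := range (S.length * L)) (t := range (S.length * L))
          (fun a _ => nx L a) (fun a ha => mem_range.2 (h.el (mem_range.1 ha)).2.2.1) (fun a b _ _ => nx_inj h0)
          le_rfl g (mem_range.2 hg)
        exact ⟨_, ⟨k, mem_range.1 hk, .inr ⟨nx_div h0 k ▸ h2, rfl⟩⟩, by simp [FF, h3]⟩
      · exact ⟨_, ⟨g, hg, .inr ⟨h2, rfl⟩⟩, by simp only [FF, mem_insert, mem_singleton]; omega⟩
  have un : ∀ s t x, Ch s → Ch t → x ∈ s → x ∈ t → s = t := by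
    rintro s t x ⟨g, hg, a⟩ ⟨k, hk, b⟩ h1 h2
    obtain ⟨a1, a2, -, a3⟩ := h.el hg
    obtain ⟨b1, b2, -, -⟩ := h.el hk
    have c1 : on (g / L) → on (k / L) → MP_0b8c1e_lc.el S L k = MP_0b8c1e_lc.el S L g → k = g := fun p q e =>
      a3 k (dis _ ((lt_iff h0).1 hk) _ ((lt_iff h0).1 hg) q p _ b1 (e ▸ a1)) e
    have c2 : ∀ {g k}, on (g / L) → ¬ on (k / L) → g / 3 ≠ k / 3 ∧ g ≠ nx L k := fun p q => by
      obtain ⟨m, rfl⟩ := h.dvd
      exact ⟨fun e => q (by rwa [← Nat.div_div_eq_div_mul, ← e, Nat.div_div_eq_div_mul]), fun e => q (by rwa [e, nx_div h0] at p)⟩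
    have c3 : nx L k = nx L g → k = g := nx_inj h0
    rcases a with ⟨p, rfl | rfl⟩ | ⟨p, rfl⟩ <;> rcases b with ⟨q, rfl | rfl⟩ | ⟨q, rfl⟩ <;>
      simp only [TT, FF, OO, mem_insert, mem_singleton] at h1 h2
    · have := c1 p q; rw [show k = g by omega]
    · omega
    · have := c2 p q; omega
    · omega
    · rw [show k / 3 = g / 3 by omega]
    · have := c2 p q; omega
    · have := c2 q p; omega
    · have := c2 q p; omega
    · rw [show k = g by omega]
  choose t h1 h2 using ex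
  refine ⟨fun v => Encodable.encode (t v), fun v => ?_⟩
  have e : ∀ u, Encodable.encode (t u) = Encodable.encode (t v) ↔ u.1 ∈ t v := fun u =>
    ⟨fun e => Encodable.encode_injective e ▸ h2 u, fun e => by rw [un _ _ _ (h1 u) (h1 v) (h2 u) e]⟩
  obtain ⟨g, hg, a⟩ := h1 v
  obtain ⟨b1, b2⟩ := h.three hg (t := t v) (by tauto)
  simp only [Good, e]
  refine ⟨?_, fun x y p q n => (h.adj _ _).2 ((b2 _ p).2 _ q (Fin.val_ne_of_ne n))⟩
  rw [← b1]
  exact card_nbij Fin.val (fun x hx => by simpa using hx) Fin.val_injective.injOn fun x hx =>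
    ⟨⟨x, (b2 x hx).1.trans_eq (tg_n S E L).symm⟩, by simpa using hx, rfl⟩

theorem OK.no (h : OK S E L) (c : Fin (tg S E L).n → ℕ) : ∃ on : ℕ → Prop,
    (∀ j < S.length, ∀ k < S.length, on j → on k → ∀ u ∈ S.getD j [], u ∈ S.getD k [] → j = k) ∧
    ((range E).filter fun u => ¬ ∃ j < S.length, on j ∧ u ∈ S.getD j []).card ≤
      (L + 1) * (univ.filter fun v => ¬ Good (tg S E L).G c (c v)).card := by
  have h0 : 0 < L := by have := h.pos; omega
  let P : ℕ → Finset ℕ := fun x => (univ.filter fun u => ∃ v, v.1 = x ∧ c u = c v).image Fin.val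
  let Z := (univ.filter fun v => ¬ Good (tg S E L).G c (c v)).image Fin.val
  have p1 : ∀ x y, y ∈ P x → P y = P x := by
    simp only [P, mem_image, mem_filter, mem_univ, true_and]
    rintro _ _ ⟨y, ⟨x, rfl, e⟩, rfl⟩
    simp only [Fin.val_inj, exists_eq_left, e]
  have p2 : ∀ x < E + 3 * (S.length * L), x ∉ Z → x ∈ P x ∧
      ∃ g < S.length * L, P x = TT S E L g ∨ P x = FF E L g ∨ P x = OO E (g / 3) := fun x hx hz => by
    obtain ⟨v, rfl⟩ : ∃ v : Fin (tg S E L).n, v.1 = x := ⟨⟨x, hx.trans_eq (tg_n S E L).symm⟩, rfl⟩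
    have hv : Good (tg S E L).G c (c v) := by_contra fun n => hz (mem_image_of_mem _ (by simpa using n))
    refine ⟨by simp [P, Fin.val_inj], ?_⟩
    obtain ⟨a, b, d, n1, n2, n3, e⟩ := card_eq_three.1 hv.1
    have m : ∀ u ∈ ({a, b, d} : Finset _), c u = c v := fun u hu => (mem_filter.1 (e.ge hu)).2
    simp only [P, Fin.val_inj, exists_eq_left, e, image_insert, image_singleton]
    simp only [mem_insert, mem_singleton, forall_eq_or_imp, forall_eq] at m
    exact h.tri ((h.adj _ _).1 (hv.2 _ _ m.1 m.2.1 n1)) ((h.adj _ _).1 (hv.2 _ _ m.1 m.2.2 n2))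
      ((h.adj _ _).1 (hv.2 _ _ m.2.1 m.2.2 n3))
  refine ⟨fun j => ∀ g, g / L = j → P (E + 3 * g) = TT S E L g, fun j hj k hk a b u hu hv => ?_, ?_⟩
  · obtain ⟨g, hg, rfl, rfl⟩ := h.ex hj hu
    obtain ⟨m, hm, rfl, e⟩ := h.ex hk hv
    have h1 := p1 (E + 3 * g) (MP_0b8c1e_lc.el S L g) (by simp [a g rfl, TT])
    have h2 := p1 (E + 3 * m) (MP_0b8c1e_lc.el S L g) (by simp [b m rfl, TT, e])
    have : E + 3 * g ∈ TT S E L m := by rw [← b m rfl, ← h2, h1, a g rfl]; simp [TT]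
    have := (h.el hm).2.1
    simp only [TT, mem_insert, mem_singleton] at *
    rw [show g = m by omega]
  refine (card_le_card (t := Z ∪ Z.biUnion fun x => (S.getD ((x - E) / 3 / L) []).toFinset) fun u hu => ?_).trans
    ((card_union_le _ _).trans ?_)
  · simp only [mem_filter, mem_range, not_exists, not_and] at hu
    by_contra! n
    simp only [mem_union, mem_biUnion, not_or, not_exists, not_and, List.mem_toFinset] at n
    obtain ⟨a, g, hg, b⟩ := p2 u (by omega) n.1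
    obtain ⟨a1, a2, -, -⟩ := h.el hg
    obtain ⟨b, rfl⟩ : P u = TT S E L g ∧ u = MP_0b8c1e_lc.el S L g := by
      rcases b with b | b | b <;> rw [b] at a <;> simp only [TT, FF, OO, mem_insert, mem_singleton] at a
      exacts [⟨b, by omega⟩, by omega, by omega]
    refine hu.2 _ ((lt_iff h0).1 hg) (fun k hk => ?_) a1
    have it : ∀ i, (nx L)^[i] g / L = g / L ∧ (nx L)^[i] g % L = (g % L + i) % L ∧
        P (E + 3 * (nx L)^[i] g) = TT S E L ((nx L)^[i] g) := fun i => by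
      induction i with
      | zero => exact ⟨rfl, by simp, (p1 _ _ (by simp [b, TT])).trans b⟩
      | succ i ih =>
        rw [Function.iterate_succ_apply', nx_div h0, nx_mod h0, ih.2.1, Nat.mod_add_mod]
        refine ⟨ih.1, rfl, ?_⟩
        obtain ⟨i1, -, i2⟩ := ih
        generalize (nx L)^[i] g = m at *
        have hm : m < S.length * L := (lt_iff h0).2 (i1 ▸ (lt_iff h0).1 hg)
        obtain ⟨-, c1, c2, -⟩ := h.el hm
        obtain ⟨d, r, hr, e⟩ := p2 (E + 3 * nx L m) (by omega) fun z => n.2 _ z (by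
          rwa [Nat.add_sub_cancel_left, Nat.mul_div_cancel_left _ three_pos, nx_div h0, i1])
        have c3 := (h.el hr).2.1
        rcases e with e | e | e <;> rw [e] at d <;> simp only [TT, FF, OO, mem_insert, mem_singleton] at d
        · rw [e, show r = nx L m by omega]
        · obtain rfl : m = r := nx_inj h0 (by omega)
          have : MP_0b8c1e_lc.el S L m ∈ FF E L m := by
            rw [← e, ← p1 _ (E + 3 * m + 1) (by simp [e, FF]), p1 (E + 3 * m) _ (by simp [i2, TT]), i2]; simp [TT]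
          simp only [FF, mem_insert, mem_singleton] at this; omega
        · omega
    obtain ⟨i1, i2, i3⟩ := it (L - g % L + k % L)
    rw [← add_assoc, Nat.add_sub_cancel' (Nat.mod_lt _ h0).le, Nat.add_mod_left, Nat.mod_mod] at i2
    rwa [← Nat.div_add_mod ((nx L)^[_] g) L, i1, i2, ← hk, Nat.div_add_mod] at i3
  · rw [add_mul, one_mul, add_comm, mul_comm]
    refine add_le_add ((card_biUnion_le_card_mul _ _ L fun x _ => (List.toFinset_card_le _).trans ?_).trans
      (Nat.mul_le_mul_right _ card_image_le)) card_image_le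
    rcases Nat.lt_or_ge ((x - E) / 3 / L) S.length with q | q
    · rw [List.getD_eq_getElem _ _ q]; exact (h.set _ (List.getElem_mem q)).1.le
    · simp [q]

end Pool.Agent.H.MP_0b8c1e_lc
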