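import Pool.Agent.H.MP_0b8c1e_lc.B

namespace Pool.Agent.H.MP_0b8c1e_lc

open Finset Classical Pool.Agent.Lib.CX Pool.Agent.Lib.helper20.PCP

section
variable {ι : Type} {J : List ι} {f : ι → List ℕ} {E L : ℕ}

theorem getD_map {j : ℕ} (h : j < J.length) : (J.map f).getD j [] = f J[j] := by
  rw [List.getD_eq_getElem _ _ (by simpa using h), List.getElem_map]

theorem OK.yes' (h : OK (J.map f) E L) (hJ : J.Nodup) (on : ι → Prop) (cov : ∀ u < E, ∃ x ∈ J, on x ∧ u ∈ f x)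
    (dis : ∀ x ∈ J, ∀ y ∈ J, on x → on y → ∀ u ∈ f x, u ∈ f y → x = y) :
    ∃ c, ∀ v, Good (tg (J.map f) E L).G c (c v) := by
  refine h.yes (fun j => ∃ h : j < J.length, on J[j]) (fun u hu => ?_) fun j _ k _ ⟨a, b⟩ ⟨c, d⟩ u p q => ?_
  · obtain ⟨x, a, b, c⟩ := cov u hu
    obtain ⟨j, hj, rfl⟩ := List.getElem_of_mem a
    exact ⟨j, by simpa using hj, ⟨hj, b⟩, by rwa [getD_map hj]⟩
  · rw [getD_map ‹_›] at p q
    exact hJ.getElem_inj_iff.1 (dis _ (List.getElem_mem a) _ (List.getElem_mem c) b d u p q)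

theorem OK.no' (h : OK (J.map f) E L) (c : Fin (tg (J.map f) E L).n → ℕ) : ∃ on : ι → Prop,
    (∀ x, on x → x ∈ J) ∧ (∀ x y, on x → on y → ∀ u ∈ f x, u ∈ f y → x = y) ∧
    ((range E).filter fun u => ¬ ∃ x, on x ∧ u ∈ f x).card ≤
      (L + 1) * (univ.filter fun v => ¬ Good (tg (J.map f) E L).G c (c v)).card := by
  obtain ⟨on, h1, h2⟩ := h.no c
  refine ⟨fun x => ∃ j, ∃ h : j < J.length, J[j] = x ∧ on j, fun x ⟨j, a, b, _⟩ => b ▸ List.getElem_mem a, ?_, (card_le_card fun u hu => ?_).trans h2⟩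
  · rintro _ _ ⟨j, a, rfl, b⟩ ⟨k, c, rfl, d⟩ u p q
    obtain rfl := h1 j (by simpa using a) k (by simpa using c) b d u (by rwa [getD_map a]) (by rwa [getD_map c])
    rfl
  · simp only [mem_filter, List.length_map] at hu ⊢
    exact ⟨hu.1, fun ⟨j, a, b, c⟩ => hu.2 ⟨_, ⟨j, a, rfl, b⟩, by rwa [getD_map a] at c⟩⟩
end

variable (D A : Type) [Fintype D] [Fintype A]

def LL : ℕ := Fintype.card D * ((Fintype.card A - 1) * 2)
abbrev Cd := (D × A × Bool) ⊕ D × Fin (LL D A - 2)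
abbrev Wd := A ⊕ D × A × A
noncomputable def Jl (N : ℕ) : List (ℕ × Wd D A) := List.range N ×ˢ univ.toList

variable {D A}

noncomputable def en (v : ℕ) (x : Cd D A) : ℕ := v * Fintype.card (Cd D A) + Fintype.equivFin _ x
noncomputable def sS (v : ℕ) (s : A) : List ℕ := (univ ×ˢ univ.erase s ×ˢ univ).toList.map fun x => en (D := D) v (.inl x)
noncomputable def sT (v w : ℕ) (i : D) (s s' : A) : List ℕ :=
  en v (.inl (i, s, false)) :: en w (.inl (i, s', true)) :: (List.finRange _).map fun k => en (A := A) v (.inr (i, k))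
noncomputable def st (p : D → ℕ → ℕ) (r : D → ℕ → A → A → Prop) : ℕ × Wd D A → List ℕ
  | (v, .inl s) => sS (D := D) v s
  | (v, .inr (i, s, s')) => if r i v s s' then sT v (p i v) i s s' else sS (D := D) v s

noncomputable def gr (N : ℕ) (p : D → ℕ → ℕ) (r : D → ℕ → A → A → Prop) : Gr :=
  tg ((Jl D A N).map (st p r)) (N * Fintype.card (Cd D A)) (LL D A)

theorem en_inj {v w : ℕ} {x y : Cd D A} : en v x = en w y ↔ v = w ∧ x = y := by
  refine ⟨fun h => ?_, fun h => by rw [h.1, h.2]⟩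
  have h1 := congrArg (· % Fintype.card (Cd D A)) h
  simp only [en, Nat.mul_add_mod_of_lt (Fin.is_lt _), Fin.val_inj, Equiv.apply_eq_iff_eq] at h1
  subst h1
  exact ⟨Nat.eq_of_mul_eq_mul_right (Fintype.equivFin _ x).pos (Nat.add_right_cancel h), rfl⟩

theorem en_lt {v N : ℕ} (h : v < N) (x : Cd D A) : en v x < N * Fintype.card (Cd D A) := by
  have := (Fintype.equivFin _ x).2; unfold en; nlinarith

theorem en_ex {u N : ℕ} (h : u < N * Fintype.card (Cd D A)) : ∃ v < N, ∃ x : Cd D A, u = en v x := by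
  have h0 : 0 < Fintype.card (Cd D A) := Nat.pos_of_ne_zero fun e => by simp [e] at h
  exact ⟨_, Nat.div_lt_of_lt_mul (mul_comm N _ ▸ h), (Fintype.equivFin _).symm ⟨_, Nat.mod_lt u h0⟩, by
    simp only [en, Equiv.apply_symm_apply, Nat.div_add_mod']⟩

theorem mem_sS {u v : ℕ} {s : A} : u ∈ sS (D := D) v s ↔ ∃ i : D, ∃ t b, t ≠ s ∧ u = en v (.inl (i, t, b)) := by
  simp [sS, eq_comm (a := u)]

theorem mem_sT {u v w : ℕ} {i : D} {s s' : A} : u ∈ sT v w i s s' ↔ u = en v (.inl (i, s, false)) ∨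
    u = en w (.inl (i, s', true)) ∨ ∃ k, u = en (A := A) v (.inr (i, k)) := by
  simp [sT, eq_comm (a := u)]

theorem mem_Jl {N : ℕ} {x : ℕ × Wd D A} : x ∈ Jl D A N ↔ x.1 < N := by
  obtain ⟨v, w⟩ := x; simp [Jl]

variable {N : ℕ} {p : D → ℕ → ℕ} {r : D → ℕ → A → A → Prop}

theorem st_ok (h1 : 2 < LL D A) (h2 : 3 ∣ LL D A) (hp : ∀ i, ∀ v < N, p i v < N) :
    OK ((Jl D A N).map (st p r)) (N * Fintype.card (Cd D A)) (LL D A) := by
  refine ⟨by omega, h2, List.forall_mem_map.2 fun ⟨v, w⟩ hx => ?_⟩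
  have hv : v < N := mem_Jl.1 hx
  have a : ∀ s : A, (sS (D := D) v s).length = LL D A ∧ (sS (D := D) v s).Nodup ∧
      ∀ u ∈ sS (D := D) v s, u < N * Fintype.card (Cd D A) := fun s =>
    ⟨by simp [sS, LL], (nodup_toList _).map fun x y e => Sum.inl.inj (en_inj.1 e).2, fun u hu => by
      obtain ⟨i, t, b, -, rfl⟩ := mem_sS.1 hu; exact en_lt hv _⟩
  obtain s | ⟨i, s, s'⟩ := w
  · exact a s
  simp only [st]
  split_ifs
  · refine ⟨by simp [sT]; omega, ?_, fun u hu => ?_⟩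
    · simp only [sT, List.nodup_cons, List.mem_cons, List.mem_map, en_inj]
      exact ⟨by simp, by simp, (List.nodup_finRange _).map fun x y e => by simpa using (en_inj.1 e).2⟩
    · rcases mem_sT.1 hu with rfl | rfl | ⟨k, rfl⟩
      exacts [en_lt hv _, en_lt (hp i v hv) _, en_lt hv _]
  · exact a s

theorem st_yes (h : OK ((Jl D A N).map (st p r)) (N * Fintype.card (Cd D A)) (LL D A))
    (su : ∀ i, ∀ w < N, ∃ v < N, p i v = w) (inj : ∀ i, ∀ v < N, ∀ w < N, p i v = p i w → v = w) (σ : ℕ → A)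
    (hσ : ∀ i v, r i v (σ v) (σ (p i v))) : ∃ c, ∀ v, Good (gr N p r).G c (c v) := by
  refine h.yes' (List.nodup_range.product (nodup_toList _))
    (fun x => ∃ v, x = (v, .inl (σ v)) ∨ ∃ i, x = (v, .inr (i, σ v, σ (p i v)))) (fun u hu => ?_) ?_
  · obtain ⟨w, hw, ⟨i, t, b⟩ | ⟨i, k⟩, rfl⟩ := en_ex hu
    · by_cases e : t = σ w
      · subst e
        cases b
        · exact ⟨_, mem_Jl.2 hw, ⟨w, .inr ⟨i, rfl⟩⟩, by simp [st, hσ, mem_sT]⟩
        · obtain ⟨v, hv, rfl⟩ := su i w hw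
          exact ⟨_, mem_Jl.2 hv, ⟨v, .inr ⟨i, rfl⟩⟩, by simp [st, hσ, mem_sT]⟩
      · exact ⟨_, mem_Jl.2 hw, ⟨w, .inl rfl⟩, mem_sS.2 ⟨i, t, b, e, rfl⟩⟩
    · exact ⟨_, mem_Jl.2 hw, ⟨w, .inr ⟨i, rfl⟩⟩, by simp [st, hσ, mem_sT, en_inj]⟩
  · rintro _ hv _ hw ⟨v, rfl | ⟨i, rfl⟩⟩ ⟨w, rfl | ⟨j, rfl⟩⟩ u a b <;>
      simp only [st, hσ, if_true, mem_sS, mem_sT] at a b
    · obtain ⟨_, _, _, _, rfl⟩ := a
      obtain ⟨_, _, _, _, b⟩ := b
      rw [(en_inj.1 b).1]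
    · obtain ⟨_, _, _, a, rfl⟩ := a
      simp only [en_inj] at b; grind
    · obtain ⟨_, _, _, b, rfl⟩ := b
      simp only [en_inj] at a; grind
    · have := inj i v (mem_Jl.1 hv) w (mem_Jl.1 hw)
      rcases a with rfl | rfl | ⟨k, rfl⟩ <;> simp only [en_inj] at b <;> grind

theorem st_no (h1 : 2 < LL D A) (h : OK ((Jl D A N).map (st p r)) (N * Fintype.card (Cd D A)) (LL D A))
    (hp : ∀ i, ∀ v < N, p i v < N) (inj : ∀ i, ∀ v < N, ∀ w < N, p i v = p i w → v = w) (c : Fin (gr N p r).n → ℕ) : ∃ σ : ℕ → A,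
    (univ.filter fun x : D × Fin N => ¬ r x.1 x.2 (σ x.2) (σ (p x.1 x.2))).card ≤
      (LL D A + 1) * (univ.filter fun v => ¬ Good (gr N p r).G c (c v)).card := by
  obtain ⟨on, h0, h2, h3⟩ := h.no' c
  have hA : 1 < Fintype.card A := by
    by_contra! q
    simp [LL, Nat.sub_eq_zero_of_le q] at h1
  have : Nonempty A := Fintype.card_pos_iff.1 (by omega)
  let σ := fun v => Classical.epsilon fun s : A => ∃ w, on (v, w) ∧ st p r (v, w) = sS (D := D) v s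
  refine ⟨σ, le_trans (card_le_card_of_forall_subsingleton (fun x u => (∃ k, u = en (A := A) x.2 (.inr (x.1, k))) ∨
    (∃ t : A, u = en x.2 (.inl (x.1, t, false))) ∨ ∃ t : A, u = en (p x.1 x.2) (.inl (x.1, t, true))) ?_ ?_) h3⟩
  · rintro ⟨i, v, hv⟩ hx
    by_contra! q
    simp only [mem_filter, mem_range, mem_univ, true_and] at q hx
    have cs : ∀ x, (∃ s : A, st p r x = sS (D := D) x.1 s) ∨ ∃ i s s', x.2 = .inr (i, s, s') ∧ r i x.1 s s' ∧
        st p r x = sT x.1 (p i x.1) i s s' := by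
      rintro ⟨v, s | ⟨i, s, s'⟩⟩
      · exact .inl ⟨s, rfl⟩
      · by_cases e : r i v s s'
        exacts [.inr ⟨i, s, s', rfl, e, if_pos e⟩, .inl ⟨s, if_neg e⟩]
    have cv : ∀ w < N, ∀ y, ((∃ k, en w y = en (A := A) v (.inr (i, k))) ∨ (∃ t : A, en w y = en v (.inl (i, t, false))) ∨
        ∃ t : A, en w y = en (p i v) (.inl (i, t, true))) → ∃ x, on x ∧ en w y ∈ st p r x := fun w hw y e => by
      by_contra! n
      have := q _ ⟨en_lt hw y, n⟩
      grind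
    obtain ⟨⟨w, x⟩, a1, a2⟩ := cv v hv (.inr (i, ⟨0, by omega⟩)) (.inl ⟨_, rfl⟩)
    obtain ⟨s, s', rfl, rfl, a3, a4⟩ : ∃ s s', w = v ∧ x = .inr (i, s, s') ∧ r i v s s' ∧
        st p r (w, x) = sT v (p i v) i s s' := by
      rcases cs (w, x) with ⟨s, e⟩ | ⟨j, s, s', e1, e2, e⟩ <;> rw [e] at a2 <;> simp only [mem_sS, mem_sT, en_inj] at a2 <;> grind
    have key : ∀ u b t, u < N → (b = false ∧ u = w ∧ t = s ∨ b = true ∧ u = p i w ∧ t = s') → t = σ u := by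
      intro u b t hu e
      obtain ⟨t', n⟩ := Fintype.exists_ne_of_one_lt_card hA t
      obtain ⟨⟨w', x⟩, b1, b2⟩ := cv u hu (.inl (i, t', b)) (by grind)
      rcases cs (w', x) with ⟨s0, e0⟩ | ⟨j, s0, s1, e1, e2, e0⟩
      · obtain rfl : u = w' := by rw [e0, mem_sS] at b2; simp only [en_inj] at b2; grind
        obtain ⟨y, c1, c2⟩ : ∃ y, on (u, y) ∧ st p r (u, y) = sS (D := D) u (σ u) :=
          Classical.epsilon_spec (p := fun s : A => ∃ w, on (u, w) ∧ st p r (u, w) = sS (D := D) u s) ⟨s0, x, b1, e0⟩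
        by_contra m
        have := h2 _ _ a1 c1 (en u (.inl (i, t, b))) (by rw [a4, mem_sT]; grind) (by rw [c2]; exact mem_sS.2 ⟨_, _, _, m, rfl⟩)
        rw [this, c2, mem_sS] at a2
        simp [en_inj] at a2
      · have hw : w' < N := mem_Jl.1 (h0 _ b1)
        have := inj i w hv w' hw
        obtain ⟨rfl, rfl, m⟩ : w' = w ∧ j = i ∧ (s0 ≠ s ∨ s1 ≠ s') := by
          rw [e0, mem_sT] at b2; simp only [en_inj] at b2; grind
        have := h2 _ _ a1 b1 _ a2 (by rw [e0, mem_sT]; exact .inr (.inr ⟨_, rfl⟩))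
        grind
    exact hx (key w false s hv (by simp) ▸ key _ true s' (hp i w hv) (by simp) ▸ a3)
  · rintro u - ⟨i, v, hv⟩ a ⟨j, w, hw⟩ b
    simp only [Set.mem_ofPred_eq] at a b
    have := inj i v hv w hw
    rcases a.2 with ⟨k, rfl⟩ | ⟨k, rfl⟩ | ⟨k, rfl⟩ <;> have b := b.2 <;> simp only [en_inj] at b <;> grind

end Pool.Agent.H.MP_0b8c1e_lc
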