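import Pool.Agent.H.MP_0b8c1e_lc.C

namespace Pool.Agent.H.MP_0b8c1e_lc

open Finset Classical Pool.Agent.Lib.CX Pool.Agent.Lib.helper20.PCP

theorem card_fin (n : ℕ) (P : ℕ → Prop) [DecidablePred P] :
    (univ.filter fun v : Fin n => P v).card = ((List.range n).filter P).length := by
  rw [card_filter, Fin.sum_univ_eq_sum_range fun v => if P v then 1 else 0, ← card_filter]; rfl

theorem ex_bad : ∃ b : Gr × List ℕ → ℕ, PT b ∧ ∀ a l, b (a, l) =
    (univ.filter fun v : Fin a.n => ¬ Good a.G (fun v => l.getD v 0) (l.getD v 0)).card := by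
  refine ⟨fun x => ((List.range x.1.n).filter fun v => ¬ (((List.range x.1.n).filter fun u =>
    x.2.getD u 0 = x.2.getD v 0).length = 3 ∧ ∀ u < x.1.n, ∀ w < x.1.n, x.2.getD u 0 = x.2.getD v 0 →
      x.2.getD w 0 = x.2.getD v 0 → u ≠ w → x.1.adjB u w)).length, by fun_prop, fun a l => ?_⟩
  beta_reduce
  rw [← card_fin]
  refine congrArg card (filter_congr fun v _ => not_congr (and_congr ?_ ?_))
  · rw [← card_fin]
  · exact ⟨fun h u w p q n => (a.adjB_iff u w).1 (h u u.2 w w.2 p q (Fin.val_ne_of_ne n)), fun h u hu w hw p q n =>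
      (a.adjB_iff ⟨u, hu⟩ ⟨w, hw⟩).2 (h _ _ p q (Fin.ne_of_val_ne n))⟩

theorem LL_eq : LL DD Sg = 49104 := by
  rw [LL, show Fintype.card DD = 24 from rfl, show Fintype.card Sg = 1024 by simp]

theorem pt_en {α D A : Type} [Enc α] [Fintype D] [Fintype A] {v : α → ℕ} (h : PT v) (y : Cd D A) :
    PT fun a => en (v a) y := by unfold en; fun_prop

theorem gr_n {D A : Type} [Fintype D] [Fintype A] : ∃ C, ∀ N p (r : D → ℕ → A → A → Prop), (gr N p r).n = N * C :=
  ⟨Fintype.card (Cd D A) + 3 * (Fintype.card (Wd D A) * LL D A), fun N p r => by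
    rw [gr, tg_n]; simp only [Jl, List.length_map, List.length_product, List.length_range, length_toList, card_univ]; ring⟩

theorem pt_gr : PT fun φ => gr (MM φ * MM φ) (pi φ) fun i v => rel (ty φ i v) := by
  have hN : PT fun φ => MM φ * MM φ := by simp only [MM, n0]; fun_prop
  have hB : PB fun φ => MM φ * MM φ := by simp only [MM, n0]; fun_prop
  refine pt_tg _ ?_ (hN.mul (PT.const _)) (hB.mul (PB.const _))
  have hS : ∀ s : Sg, PT fun x : List (List ℕ) × ℕ => sS (D := DD) x.2 s := fun s =>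
    pt_map_const _ fun i => pt_en PT.snd' _
  have : PT fun x : List (List ℕ) × ℕ => univ.toList.map fun w => st (pi x.1) (fun i v => rel (ty x.1 i v)) (x.2, w) :=
    pt_map_const _ fun w => by
      obtain s | ⟨i, s, s'⟩ := w
      · exact hS s
      refine pt_fin (F := fun t x => if rel t s s' then sT x.2 (pi x.1 i x.2) i s s' else sS (D := DD) x.2 s)
        (pt_ty i) 102 (fun x => ty_lt _ _ _) fun t => ?_
      by_cases h : rel t s s' <;> simp only [h, if_true, if_false, hS]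
      exact (pt_en PT.snd' _).cons ((pt_en (pt_pi i) _).cons (pt_map_const _ fun i => pt_en PT.snd' _))
  simp only [Jl, SProd.sprod, List.product, List.map_flatMap, List.map_map, Function.comp_def]
  exact PT.flatMap this (PT.range hN hB)

theorem main : ∃ ε : ℝ, 0 < ε ∧ ∀ f : Gr → List ℕ, PT f →
    (∀ (a : Gr) (c : Fin a.n → ℕ), (1 - ε) * dens a.G c ≤ dens a.G fun v => (f a).getD v 0) →
    ∀ L : List Bool → Prop, InNP L → InP L := by
  obtain ⟨ε, K, ε0, hp⟩ := pcp
  obtain ⟨M, hM⟩ := exists_nat_gt (3840 * 49105 / ε)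
  have M0 : (0 : ℝ) < M := lt_trans (by positivity) hM
  obtain ⟨C, hC⟩ := gr_n (D := DD) (A := Sg)
  refine ⟨1 / (16 * (C + 1) * M), by positivity, fun f hf H L hL => ?_⟩
  obtain ⟨φ, hφ, e⟩ := hp L hL
  obtain ⟨b, b1, b2⟩ := ex_bad
  have hN : PT fun φ => MM φ * MM φ := by simp only [MM, n0]; fun_prop
  refine InP.of_iff (InP.of_decide (i := fun _ => inferInstance) (PT.decide_le
    ((PT.const M).mul (b1.comp ((pt_gr.comp hφ).pair (hf.comp (pt_gr.comp hφ))))) (hN.comp hφ))) fun x => ?_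
  obtain ⟨e1, e2, e3⟩ := e x
  generalize φ x = ψ at *
  have h0 : 0 < n0 ψ := by have := List.length_pos_iff.2 e1.1; unfold n0; omega
  have p1 : ∀ i, ∀ v < MM ψ * MM ψ, pi ψ i v < MM ψ * MM ψ := fun i v hv => ((RR h0).π i ⟨v, hv⟩).2
  have p2 : ∀ i, ∀ v < MM ψ * MM ψ, pi ψ ((RR h0).inv i) (pi ψ i v) = v := fun i v hv =>
    congrArg Fin.val ((RR h0).π_inv i ⟨v, hv⟩)
  have p3 : ∀ i, ∀ v < MM ψ * MM ψ, ∀ w < MM ψ * MM ψ, pi ψ i v = pi ψ i w → v = w := fun i v hv w hw e => by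
    rw [← p2 i v hv, e, p2 i w hw]
  have ok := st_ok (r := fun i v => rel (ty ψ i v)) (by rw [LL_eq]; norm_num) (by rw [LL_eq]; norm_num) p1
  have N0 : (0 : ℝ) < (MM ψ * MM ψ : ℕ) := by exact_mod_cast h0.trans_le n0_lt
  rw [b2]
  refine ⟨fun hx => ?_, fun hx => by_contra fun hn => ?_⟩
  · obtain ⟨σ, hσ⟩ := pre_sat h0 (e2 hx)
    obtain ⟨c, hc⟩ := st_yes ok (fun i w hw => ⟨_, p1 ((RR h0).inv i) w hw, by
      simpa only [(RR h0).inv_inv] using p2 ((RR h0).inv i) w hw⟩) p3 σ hσ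
    have h1 := (H _ c).trans (dens_le _ _ ok.dia)
    rw [dens_eq _ _ hc, Fintype.card_fin] at h1
    generalize Finset.card _ = z at h1 ⊢
    rw [hC] at h1
    generalize MM ψ * MM ψ = N at h1 N0 ⊢
    refine (Nat.cast_le (α := ℝ)).1 ?_
    push_cast at h1 ⊢
    have h2 : (z : ℝ) ≤ N * C / ((C + 1) * M) := by
      rw [show (N * C / ((C + 1) * M) : ℝ) = 48 * (1 / (16 * (C + 1) * M) * (N * C / 3)) by field_simp; ring]; linarith
    rw [le_div_iff₀ (by positivity)] at h2
    exact le_of_mul_le_mul_right (by nlinarith) (show (0 : ℝ) < C + 1 by positivity)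
  · obtain ⟨σ, hσ⟩ := st_no (by rw [LL_eq]; norm_num) ok p1 p3 fun v =>
      (f (gr (MM ψ * MM ψ) (pi ψ) fun i v => rel (ty ψ i v))).getD v 0
    have h1 := pre_gap h0 (e3 hn) ε0.le fun v => σ v
    rw [exp2, ← sum_product', univ_product_univ, le_div_iff₀ (mul_pos (by norm_num) N0)] at h1
    rw [LL_eq, ← Nat.cast_le (α := ℝ), card_filter] at hσ
    rw [← Nat.cast_le (α := ℝ)] at hx
    rw [div_lt_iff₀ ε0] at hM
    generalize Finset.card _ = z at hσ hx
    push_cast [ite_not] at hσ hx h1 N0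
    have h2 := h1.trans hσ
    nlinarith

end Pool.Agent.H.MP_0b8c1e_lc
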