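import Pool.Agent.Lib.lead.CXGraph

namespace Pool.Agent.H.MP_0b8c1e_lc

open Finset Classical

/-- density of the partition of the vertices into the nonempty fibres of `c` :
the sum over the parts of (number of edges inside the part) / (size of the part) -/
noncomputable def dens {V : Type} [Fintype V] (G : SimpleGraph V) (c : V → ℕ) : ℝ :=
  ∑ t ∈ univ.image c, ((G.edgeFinset.filter fun e => ∀ v ∈ e, c v = t).card : ℝ) / (univ.filter fun v => c v = t).card

end Pool.Agent.H.MP_0b8c1e_lc
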